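import Pool.Agent.Q297.WT.Trans
import Pool.Agent.Q149.WT.SEL1
import Pool.Agent.Q149.WT.SEL2
import Pool.Agent.Q79.WT.YM

/-!
Row MP_0f8574_pr, Q2: there is a random time `T` with `E T < ∞` such that the window of Brownian motion
at `T` is a three-dimensional Bessel process.
-/

open MeasureTheory ProbabilityTheory Set
open scoped ENNReal NNReal unitInterval
open Q297.PathC Q297.WT

universe u v

namespace Pool.Agent.Results.MP_0f8574_pr.BesselWindow

/-- **Q2: yes.** There is a measurable `T` such that for every Brownian motion `B` and every independent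
i.i.d. sequence `U` of uniform random variables the random time `T (B, U)` has finite expectation and the
window of `B` at this time has the law of the Euclidean norm of a three-dimensional Brownian motion,
restricted to `[0, 1]`. -/
theorem result :
    ∃ T : C(ℝ≥0, ℝ) × (ℕ → I × I) → ℝ≥0, Measurable T ∧
      ∀ {Ω : Type u} [MeasurableSpace Ω] (P : Measure Ω) [IsProbabilityMeasure P]
        (B : Ω → C(ℝ≥0, ℝ)) (U : Ω → ℕ → I × I), IsBM B P → Measurable U → P.map U = uniforms →
        IndepFun B U P →
        ∫⁻ ω, (T (B ω, U ω) : ℝ≥0∞) ∂P < ∞ ∧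
        ∀ {Ω' : Type v} [MeasurableSpace Ω'] (P' : Measure Ω') [IsProbabilityMeasure P']
          (X : Fin 3 → Ω' → C(ℝ≥0, ℝ)), (∀ i, IsBM (X i) P') → iIndepFun X P' →
          ∀ F : C(I, ℝ) → ℝ≥0∞, Measurable F →
            ∫⁻ ω, F (window (B ω) (T (B ω, U ω))) ∂P = ∫⁻ ω, F (radius fun i => X i ω) ∂P' := by
  have h := transfer.{u, v} (Pool.Agent.Q149.WT.sel2 Pool.Agent.Q149.WT.sel1) Q79.WT.ym wt_one
  simpa only [one_mul] using h

end Pool.Agent.Results.MP_0f8574_pr.BesselWindow
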